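import Mathlib

set_option autoImplicit false

namespace Pool.Agent.T6.H51.SV

lemma joint_basis {K n : ℕ} {E : Type*} [NormedAddCommGroup E] [InnerProductSpace ℂ E]
    [FiniteDimensional ℂ E] (hn : Module.finrank ℂ E = n) (T : Fin K → E →ₗ[ℂ] E)
    (hsym : ∀ J, (T J).IsSymmetric) (hcomm : Pairwise (Function.onFun Commute T)) :
    ∃ (u : OrthonormalBasis (Fin n) ℂ E) (χ : Fin n → Fin K → ℂ), ∀ j J, T J (u j) = χ j J • u j := by
  classical
  let V : (Fin K → ℂ) → Submodule ℂ E := fun χ => ⨅ J, Module.End.eigenspace (T J) (χ J)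
  have hint : DirectSum.IsInternal V :=
    LinearMap.IsSymmetric.directSum_isInternal_of_pairwise_commute hsym hcomm
  have horth : OrthogonalFamily ℂ (fun χ => V χ) fun χ => (V χ).subtypeₗᵢ :=
    LinearMap.IsSymmetric.orthogonalFamily_iInf_eigenspaces hsym
  have hfin : Finite {χ // V χ ≠ ⊥} :=
    WellFoundedGT.finite_ne_bot_of_iSupIndep hint.submodule_iSupIndep
  have hfint : Fintype {χ // V χ ≠ ⊥} := Fintype.ofFinite _
  have hint2 : DirectSum.IsInternal (fun χ : {χ // V χ ≠ ⊥} => V χ.1) :=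
    (DirectSum.isInternal_ne_bot_iff).2 hint
  have horth2 : OrthogonalFamily ℂ (fun χ : {χ // V χ ≠ ⊥} => V χ.1) fun χ => (V χ.1).subtypeₗᵢ :=
    horth.comp Subtype.val_injective
  let u : OrthonormalBasis (Fin n) ℂ E :=
    DirectSum.IsInternal.subordinateOrthonormalBasis (ι := {χ // V χ ≠ ⊥}) hn hint2 horth2
  have hmem : ∀ j, ∃ χ : {χ // V χ ≠ ⊥}, u j ∈ V χ.1 := fun j =>
    ⟨_, DirectSum.IsInternal.subordinateOrthonormalBasis_subordinate (ι := {χ // V χ ≠ ⊥})
      hn hint2 j horth2⟩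
  choose χ hχ using hmem
  refine ⟨u, fun j => (χ j).1, fun j J => ?_⟩
  have h1 : u j ∈ ⨅ J, Module.End.eigenspace (T J) ((χ j).1 J) := hχ j
  rw [Submodule.mem_iInf] at h1
  exact Module.End.mem_eigenspace_iff.1 (h1 J)

end Pool.Agent.T6.H51.SV
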