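import Pool.Agent.T6.H51.SV.Favard

/-!
# Matching of joint eigenvalues

For commuting tuples of symmetric operators `A`, `B` with joint eigenvalues `α`, `β` and
`∑ ‖(A J - B J) y‖ ^ 2 ≤ η ^ 2 ‖y‖ ^ 2` there is a permutation `σ` with
`|α j - β (σ j)| ≤ π K η` for all `j`.
-/

set_option autoImplicit false

namespace Pool.Agent.T6.H51.SV

open Set Filter Topology

variable {K n : ℕ}

/-- abbreviation -/
abbrev En (n : ℕ) := EuclideanSpace ℂ (Fin n)

/-- the curve `exp (i s H) x` in an eigenbasis -/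
noncomputable def cur (u : OrthonormalBasis (Fin n) ℂ (En n)) (θ : Fin n → ℝ) (x : En n) (s : ℝ) : En n :=
  ∑ j, (inner ℂ (u j) x * Complex.exp (Complex.I * ((s * θ j : ℝ) : ℂ))) • u j

lemma cur_zero (u : OrthonormalBasis (Fin n) ℂ (En n)) (θ : Fin n → ℝ) (x : En n) :
    cur u θ x 0 = x := by
  unfold cur
  simp only [zero_mul, Complex.ofReal_zero, mul_zero, Complex.exp_zero, mul_one]
  exact u.sum_repr' x

lemma cur_norm (u : OrthonormalBasis (Fin n) ℂ (En n)) (θ : Fin n → ℝ) (x : En n) (s : ℝ) :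
    ‖cur u θ x s‖ = ‖x‖ := by
  have h1 : ∀ j, inner ℂ (u j) (cur u θ x s) =
      inner ℂ (u j) x * Complex.exp (Complex.I * ((s * θ j : ℝ) : ℂ)) := by
    intro j
    unfold cur
    rw [inner_sum]
    simp_rw [inner_smul_right, orthonormal_iff_ite.1 u.orthonormal]
    simp
  have h2 : ‖cur u θ x s‖ ^ 2 = ‖x‖ ^ 2 := by
    rw [← u.sum_sq_norm_inner_right (cur u θ x s), ← u.sum_sq_norm_inner_right x]
    refine Finset.sum_congr rfl fun j _ => ?_
    rw [h1 j, norm_mul, mul_comm Complex.I, Complex.norm_exp_ofReal_mul_I, mul_one]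
  exact (pow_left_inj₀ (norm_nonneg _) (norm_nonneg _) (by norm_num)).1 h2

lemma cur_deriv (u : OrthonormalBasis (Fin n) ℂ (En n)) (θ : Fin n → ℝ) (x : En n)
    (H : En n →ₗ[ℂ] En n) (hH : ∀ j, H (u j) = (θ j : ℂ) • u j) (s : ℝ) :
    HasDerivAt (cur u θ x) (Complex.I • H (cur u θ x s)) s := by
  have h1 : Complex.I • H (cur u θ x s) = ∑ j, (inner ℂ (u j) x *
      (Complex.exp (Complex.I * ((s * θ j : ℝ) : ℂ)) * (Complex.I * (θ j : ℂ)))) • u j := by
    unfold cur
    rw [map_sum, Finset.smul_sum]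
    refine Finset.sum_congr rfl fun j _ => ?_
    rw [map_smul, hH, smul_smul, smul_smul]
    congr 1
    ring
  rw [h1]
  unfold cur
  apply HasDerivAt.fun_sum
  intro j _
  apply HasDerivAt.smul_const
  apply HasDerivAt.const_mul
  have h2 : HasDerivAt (fun s : ℝ => Complex.I * ((s * θ j : ℝ) : ℂ)) (Complex.I * (θ j : ℂ)) s := by
    apply HasDerivAt.const_mul
    have h3 : HasDerivAt (fun s : ℝ => s * θ j) (θ j) s := by
      simpa using (hasDerivAt_id s).mul_const (θ j)
    exact h3.ofReal_comp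
  exact h2.cexp

lemma lip (u v : OrthonormalBasis (Fin n) ℂ (En n)) (θ κ : Fin n → ℝ) (x : En n)
    (H G : En n →ₗ[ℂ] En n) (hH : ∀ j, H (u j) = (θ j : ℂ) • u j)
    (hG : ∀ j, G (v j) = (κ j : ℂ) • v j) (hs : H.IsSymmetric) {C : ℝ}
    (hC : ∀ y, ‖G y - H y‖ ≤ C * ‖y‖) :
    ‖inner ℂ (cur u θ x 1) (cur v κ x 1) - inner ℂ x x‖ ≤ C * ‖x‖ ^ 2 := by
  set f : ℝ → ℂ := fun s => inner ℂ (cur u θ x s) (cur v κ x s) with hf
  have hd : ∀ s : ℝ, HasDerivAt f (inner ℂ (cur u θ x s) (Complex.I • G (cur v κ x s)) +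
      inner ℂ (Complex.I • H (cur u θ x s)) (cur v κ x s)) s := by
    intro s
    exact (cur_deriv u θ x H hH s).inner ℂ (cur_deriv v κ x G hG s)
  have hn : ∀ s : ℝ, ‖inner ℂ (cur u θ x s) (Complex.I • G (cur v κ x s)) +
      inner ℂ (Complex.I • H (cur u θ x s)) (cur v κ x s)‖ ≤ C * ‖x‖ ^ 2 := by
    intro s
    have e1 : inner ℂ (cur u θ x s) (Complex.I • G (cur v κ x s)) +
      inner ℂ (Complex.I • H (cur u θ x s)) (cur v κ x s) =
      Complex.I * inner ℂ (cur u θ x s) (G (cur v κ x s) - H (cur v κ x s)) := by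
      rw [inner_smul_right, inner_smul_left, inner_sub_right, hs (cur u θ x s) (cur v κ x s)]
      simp
      ring
    rw [e1, norm_mul, Complex.norm_I, one_mul]
    refine (norm_inner_le_norm _ _).trans ?_
    rw [cur_norm]
    calc ‖x‖ * ‖G (cur v κ x s) - H (cur v κ x s)‖ ≤ ‖x‖ * (C * ‖cur v κ x s‖) := by
          gcongr
          exact hC _
      _ = C * ‖x‖ ^ 2 := by rw [cur_norm]; ring
  have h1 := norm_image_sub_le_of_norm_deriv_le_segment_01' (f := f)
    (f' := fun s => inner ℂ (cur u θ x s) (Complex.I • G (cur v κ x s)) +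
      inner ℂ (Complex.I • H (cur u θ x s)) (cur v κ x s)) (C := C * ‖x‖ ^ 2)
    (fun s _ => (hd s).hasDerivWithinAt) (fun s _ => hn s)
  simp only [hf, cur_zero] at h1
  exact h1

/-- the hypotheses on a tuple -/
structure Tup (A : Fin K → En n →ₗ[ℂ] En n) (u : OrthonormalBasis (Fin n) ℂ (En n))
    (α : Fin n → Fin K → ℝ) : Prop where
  symm : ∀ J, (A J).IsSymmetric
  eig : ∀ J j, A J (u j) = (α j J : ℂ) • u j

lemma key {A B : Fin K → En n →ₗ[ℂ] En n} {u v : OrthonormalBasis (Fin n) ℂ (En n)}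
    {α β : Fin n → Fin K → ℝ} (hA : Tup A u α) (hB : Tup B v β) {η : ℝ} (hη : 0 ≤ η)
    (hAB : ∀ y, ∑ J, ‖B J y - A J y‖ ^ 2 ≤ η ^ 2 * ‖y‖ ^ 2) {δ : ℝ} (hδ : 0 < δ) (x : En n)
    (hx : x ≠ 0)
    (hsep : ∀ j k, inner ℂ (u j) x ≠ 0 → inner ℂ (v k) x ≠ 0 → δ ^ 2 ≤ ∑ J, (β k J - α j J) ^ 2) :
    δ ≤ Real.pi * K * η := by
  classical
  set c : Fin n × Fin n → ℂ := fun p => (starRingEnd ℂ) (inner ℂ (u p.1) x) * inner ℂ (v p.2) x *
    inner ℂ (u p.1) (v p.2) with hc
  set ξ : Fin n × Fin n → Fin K → ℝ := fun p J => β p.2 J - α p.1 J with hξ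
  have hexp : ∀ θ κ : Fin n → ℝ, inner ℂ (cur u θ x 1) (cur v κ x 1) =
      ∑ p, c p * Complex.exp (Complex.I * ((κ p.2 - θ p.1 : ℝ) : ℂ)) := by
    intro θ κ
    unfold cur
    rw [sum_inner, Fintype.sum_prod_type]
    refine Finset.sum_congr rfl fun j _ => ?_
    rw [inner_sum]
    refine Finset.sum_congr rfl fun k _ => ?_
    rw [inner_smul_left, inner_smul_right, hc]
    simp only [one_mul, map_mul, ← Complex.exp_conj, Complex.conj_I, Complex.conj_ofReal]
    have e : Complex.exp (Complex.I * ((κ k - θ j : ℝ) : ℂ)) =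
        Complex.exp (-Complex.I * (θ j : ℂ)) * Complex.exp (Complex.I * (κ k : ℂ)) := by
      rw [← Complex.exp_add]
      congr 1
      push_cast
      ring
    rw [e]
    ring
  have hc0 : ∑ p, c p = inner ℂ x x := by
    have h1 := hexp 0 0
    have h2 : cur u 0 x 1 = x := by
      unfold cur
      simp only [Pi.zero_apply, mul_zero, Complex.ofReal_zero, Complex.exp_zero, mul_one]
      exact u.sum_repr' x
    have h3 : cur v 0 x 1 = x := by
      unfold cur
      simp only [Pi.zero_apply, mul_zero, Complex.ofReal_zero, Complex.exp_zero, mul_one]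
      exact v.sum_repr' x
    rw [h2, h3] at h1
    rw [h1]
    simp
  have hL : ∀ t : Fin K → ℝ, ‖∑ i, c i - ∑ i, c i * Complex.exp (Complex.I * ((∑ j, ξ i j * t j : ℝ) : ℂ))‖
      ≤ (η * ‖x‖ ^ 2) * Real.sqrt (∑ j, t j ^ 2) := by
    intro t
    set H : En n →ₗ[ℂ] En n := ∑ J, (t J : ℂ) • A J with hH
    set G : En n →ₗ[ℂ] En n := ∑ J, (t J : ℂ) • B J with hG
    have hHu : ∀ j, H (u j) = ((∑ J, t J * α j J : ℝ) : ℂ) • u j := by
      intro j
      rw [hH, LinearMap.sum_apply]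
      push_cast
      rw [Finset.sum_smul]
      refine Finset.sum_congr rfl fun J _ => ?_
      rw [LinearMap.smul_apply, hA.eig, smul_smul]
    have hGv : ∀ j, G (v j) = ((∑ J, t J * β j J : ℝ) : ℂ) • v j := by
      intro j
      rw [hG, LinearMap.sum_apply]
      push_cast
      rw [Finset.sum_smul]
      refine Finset.sum_congr rfl fun J _ => ?_
      rw [LinearMap.smul_apply, hB.eig, smul_smul]
    have hHs : H.IsSymmetric := by
      intro y z
      rw [hH]
      simp only [LinearMap.sum_apply, LinearMap.smul_apply, sum_inner, inner_sum, inner_smul_left,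
        inner_smul_right, Complex.conj_ofReal]
      exact Finset.sum_congr rfl fun J _ => by rw [hA.symm J y z]
    have hb : ∀ y, ‖G y - H y‖ ≤ (η * Real.sqrt (∑ j, t j ^ 2)) * ‖y‖ := by
      intro y
      have h1 : G y - H y = ∑ J, (t J : ℂ) • (B J y - A J y) := by
        rw [hG, hH]
        simp only [LinearMap.sum_apply, LinearMap.smul_apply, smul_sub, Finset.sum_sub_distrib]
      rw [h1]
      have h2 : ‖∑ J, (t J : ℂ) • (B J y - A J y)‖ ≤ ∑ J, |t J| * ‖B J y - A J y‖ := by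
        refine (norm_sum_le _ _).trans (le_of_eq ?_)
        refine Finset.sum_congr rfl fun J _ => ?_
        rw [norm_smul, Complex.norm_real, Real.norm_eq_abs]
      refine h2.trans ?_
      have h3 := Finset.sum_mul_sq_le_sq_mul_sq Finset.univ (fun J => |t J|) (fun J => ‖B J y - A J y‖)
      have h4 : (∑ J, |t J| * ‖B J y - A J y‖) ^ 2 ≤ ((η * Real.sqrt (∑ j, t j ^ 2)) * ‖y‖) ^ 2 := by
        refine h3.trans ?_
        have h5 : 0 ≤ ∑ j, t j ^ 2 := Finset.sum_nonneg fun j _ => sq_nonneg _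
        rw [mul_pow, mul_pow, Real.sq_sqrt h5]
        simp only [sq_abs]
        calc (∑ J, t J ^ 2) * ∑ J, ‖B J y - A J y‖ ^ 2 ≤ (∑ J, t J ^ 2) * (η ^ 2 * ‖y‖ ^ 2) := by
              gcongr
              exact hAB y
          _ = _ := by ring
      exact abs_le_of_sq_le_sq' h4 (by positivity) |>.2
    have h1 := lip u v (fun j => ∑ J, t J * α j J) (fun j => ∑ J, t J * β j J) x H G hHu hGv hHs hb
    rw [hexp, ← hc0, norm_sub_rev] at h1
    have h2 : ∑ i, c i * Complex.exp (Complex.I * ((∑ j, ξ i j * t j : ℝ) : ℂ)) =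
        ∑ p, c p * Complex.exp (Complex.I * (((∑ J, t J * β p.2 J) - (∑ J, t J * α p.1 J) : ℝ) : ℂ)) := by
      refine Finset.sum_congr rfl fun p _ => ?_
      congr 4
      rw [← Finset.sum_sub_distrib, hξ]
      exact Finset.sum_congr rfl fun J _ => by ring
    rw [h2]
    refine h1.trans (le_of_eq ?_)
    ring
  have hξδ : ∀ p, c p ≠ 0 → δ ^ 2 ≤ ∑ J, ξ p J ^ 2 := by
    intro p hp
    apply hsep
    · intro h
      apply hp
      rw [hc]
      simp [h]
    · intro h
      apply hp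
      rw [hc]
      simp [h]
  have hfin := favard c ξ hδ (by positivity) hξδ hL
  rw [hc0, inner_self_eq_norm_sq_to_K] at hfin
  have hx0 : 0 < ‖x‖ := norm_pos_iff.2 hx
  have h1 : ‖((‖x‖ : ℂ)) ^ 2‖ = ‖x‖ ^ 2 := by
    rw [norm_pow, Complex.norm_real, norm_norm]
  have h2 : ‖x‖ ^ 2 ≤ η * ‖x‖ ^ 2 * (Real.pi * K / δ) := by
    calc ‖x‖ ^ 2 = ‖((‖x‖ : ℂ)) ^ 2‖ := h1.symm
      _ ≤ _ := hfin
  have h3 : 0 < ‖x‖ ^ 2 := by positivity
  have h4 : 1 ≤ η * (Real.pi * K / δ) := by
    by_contra hcon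
    push Not at hcon
    nlinarith
  have h5 : η * (Real.pi * K / δ) = Real.pi * K * η / δ := by ring
  rw [h5, one_le_div hδ] at h4
  exact h4

/-- a nonzero vector in the intersection of two coordinate subspaces -/
lemma exists_common (u v : OrthonormalBasis (Fin n) ℂ (En n)) (S T : Finset (Fin n))
    (h : n < S.card + T.card) :
    ∃ x : En n, x ≠ 0 ∧ (∀ j, inner ℂ (u j) x ≠ 0 → j ∈ S) ∧ (∀ k, inner ℂ (v k) x ≠ 0 → k ∈ T) := by
  classical
  set U : Submodule ℂ (En n) := Submodule.span ℂ (u '' (S : Set (Fin n))) with hU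
  set V : Submodule ℂ (En n) := Submodule.span ℂ (v '' (T : Set (Fin n))) with hV
  have hdim : ∀ (w : OrthonormalBasis (Fin n) ℂ (En n)) (R : Finset (Fin n)),
      Module.finrank ℂ (Submodule.span ℂ (w '' (R : Set (Fin n)))) = R.card := by
    intro w R
    have h1 : LinearIndependent ℂ (fun i : R => w i) :=
      w.orthonormal.linearIndependent.comp _ Subtype.val_injective
    have h2 := finrank_span_eq_card h1
    rw [Fintype.card_coe] at h2
    have h3 : w '' (R : Set (Fin n)) = range (fun i : R => w i) := by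
      rw [Set.image_eq_range]
      rfl
    rw [h3, h2]
  have h1 := Submodule.finrank_sup_add_finrank_inf_eq U V
  rw [hU, hV, hdim, hdim, ← hU, ← hV] at h1
  have h2 : Module.finrank ℂ (U ⊔ V : Submodule ℂ (En n)) ≤ n := by
    have := Submodule.finrank_le (U ⊔ V)
    rwa [finrank_euclideanSpace_fin] at this
  have h3 : 0 < Module.finrank ℂ (U ⊓ V : Submodule ℂ (En n)) := by omega
  have h4 : (U ⊓ V) ≠ ⊥ := by
    intro h5
    rw [h5, finrank_bot] at h3
    exact lt_irrefl _ h3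
  obtain ⟨x, hx, hx0⟩ := Submodule.exists_mem_ne_zero_of_ne_bot h4
  have horth : ∀ (w : OrthonormalBasis (Fin n) ℂ (En n)) (R : Finset (Fin n)) (x : En n),
      x ∈ Submodule.span ℂ (w '' (R : Set (Fin n))) → ∀ j, inner ℂ (w j) x ≠ 0 → j ∈ R := by
    intro w R x hxR j hj
    by_contra hjR
    apply hj
    clear hj
    induction hxR using Submodule.span_induction with
    | mem y hy =>
      obtain ⟨i, hi, rfl⟩ := hy
      rw [orthonormal_iff_ite.1 w.orthonormal, if_neg]
      rintro rfl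
      exact hjR hi
    | zero => exact inner_zero_right _
    | add y z _ _ hy hz => rw [inner_add_right, hy, hz, add_zero]
    | smul a y _ hy => rw [inner_smul_right, hy, mul_zero]
  exact ⟨x, hx0, horth u S x hx.1, horth v T x hx.2⟩

/-- **Matching of joint eigenvalues.** -/
theorem matching {A B : Fin K → En n →ₗ[ℂ] En n} {u v : OrthonormalBasis (Fin n) ℂ (En n)}
    {α β : Fin n → Fin K → ℝ} (hA : Tup A u α) (hB : Tup B v β) {η : ℝ} (hη : 0 ≤ η)
    (hAB : ∀ y, ∑ J, ‖B J y - A J y‖ ^ 2 ≤ η ^ 2 * ‖y‖ ^ 2) :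
    ∃ σ : Equiv.Perm (Fin n), ∀ j, Real.sqrt (∑ J, (α j J - β (σ j) J) ^ 2) ≤ Real.pi * K * η := by
  classical
  set r : ℝ := Real.pi * K * η with hr
  have hr0 : 0 ≤ r := by positivity
  set d : Fin n → Fin n → ℝ := fun j k => Real.sqrt (∑ J, (α j J - β k J) ^ 2) with hd
  set t : Fin n → Finset (Fin n) := fun j => Finset.univ.filter (fun k => d j k ≤ r) with ht
  by_cases hHall : ∀ s : Finset (Fin n), s.card ≤ (s.biUnion t).card
  · obtain ⟨f, hf, hft⟩ := (Finset.all_card_le_biUnion_card_iff_exists_injective t).1 hHall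
    refine ⟨Equiv.ofBijective f ((Finite.injective_iff_bijective).1 hf), fun j => ?_⟩
    have := hft j
    rw [ht] at this
    simpa [hd] using this
  · exfalso
    push Not at hHall
    obtain ⟨S, hS⟩ := hHall
    set T : Finset (Fin n) := (S.biUnion t)ᶜ with hT
    have hcard : n < S.card + T.card := by
      rw [hT, Finset.card_compl, Fintype.card_fin]
      have := Finset.card_le_univ (S.biUnion t)
      rw [Fintype.card_fin] at this
      omega
    obtain ⟨x, hx0, hxS, hxT⟩ := exists_common u v S T hcard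
    have hsep : ∀ j ∈ S, ∀ k ∈ T, r < d j k := by
      intro j hj k hk
      by_contra hcon
      push Not at hcon
      rw [hT, Finset.mem_compl] at hk
      apply hk
      rw [Finset.mem_biUnion]
      exact ⟨j, hj, by rw [ht]; simpa using hcon⟩
    -- nonempty
    have hSne : S.Nonempty := by
      rw [Finset.nonempty_iff_ne_empty]
      rintro rfl
      simp at hS
    have hTne : T.Nonempty := by
      rw [← Finset.card_pos]
      have := Finset.card_le_univ S
      rw [Fintype.card_fin] at this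
      omega
    obtain ⟨p, hp, hmin⟩ := Finset.exists_min_image (S ×ˢ T) (fun p => d p.1 p.2) (hSne.product hTne)
    rw [Finset.mem_product] at hp
    have h1 := hsep _ hp.1 _ hp.2
    have hδ : 0 < d p.1 p.2 := lt_of_le_of_lt hr0 h1
    have h2 := key hA hB hη hAB hδ x hx0 (by
      intro j k hj hk
      have h3 := hmin (j, k) (Finset.mem_product.2 ⟨hxS j hj, hxT k hk⟩)
      have h4 : 0 ≤ ∑ J, (α j J - β k J) ^ 2 := Finset.sum_nonneg fun J _ => sq_nonneg _
      calc d p.1 p.2 ^ 2 ≤ d j k ^ 2 := by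
            apply pow_le_pow_left₀ hδ.le h3
        _ = ∑ J, (α j J - β k J) ^ 2 := Real.sq_sqrt h4
        _ = ∑ J, (β k J - α j J) ^ 2 := Finset.sum_congr rfl fun J _ => by ring)
    linarith

end Pool.Agent.T6.H51.SV
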