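import Pool.Agent.T6.H51.SV.Kernel2

/-!
# A Bohr-Favard inequality in several variables

If all frequencies of the trigonometric polynomial `∑ c i * exp (I ⟨t, ξ i⟩)` on `ℝ ^ K` satisfy
`‖ξ i‖ ≥ δ` and its values differ from the value at `0` by at most `η ‖t‖`, then the value at `0` is
at most `η π K / δ`.
-/

set_option autoImplicit false

namespace Pool.Agent.T6.H51.SV

open MeasureTheory Set Filter Topology

variable {K : ℕ}

/-- product measure -/
noncomputable def nuK (K : ℕ) : Measure (Fin K → ℝ) := Measure.pi (fun _ => nu)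

instance : IsProbabilityMeasure (nuK K) := by unfold nuK; infer_instance

lemma nuK_char (θ : Fin K → ℝ) :
    ∫ x, Complex.exp (Complex.I * ((∑ j, θ j * x j : ℝ) : ℂ)) ∂(nuK K) = ∏ j, (ps (θ j) : ℂ) := by
  have h1 : ∀ x : Fin K → ℝ, Complex.exp (Complex.I * ((∑ j, θ j * x j : ℝ) : ℂ)) =
      ∏ j, Complex.exp (Complex.I * ((θ j * x j : ℝ) : ℂ)) := by
    intro x
    rw [← Complex.exp_sum]
    congr 1
    push_cast
    rw [Finset.mul_sum]
  simp_rw [h1]
  unfold nuK
  rw [integral_fintype_prod_eq_prod (f := fun j s => Complex.exp (Complex.I * ((θ j * s : ℝ) : ℂ)))]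
  exact Finset.prod_congr rfl fun j _ => nu_char (θ j)

lemma nuK_sq_int (j : Fin K) : Integrable (fun x : Fin K → ℝ => x j ^ 2) (nuK K) := by
  have h := measurePreserving_eval (fun _ : Fin K => nu) j
  exact h.integrable_comp_of_integrable nu_sq_int

lemma nuK_sq (j : Fin K) : ∫ x : Fin K → ℝ, x j ^ 2 ∂(nuK K) ≤ Real.pi ^ 2 := by
  have h := measurePreserving_eval (fun _ : Fin K => nu) j
  have h2 : ∫ x : Fin K → ℝ, x j ^ 2 ∂(nuK K) = ∫ s, s ^ 2 ∂nu := by
    have h3 := h.map_eq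
    have h4 : ∫ s, s ^ 2 ∂(Measure.map (Function.eval j) (Measure.pi (fun _ : Fin K => nu))) =
        ∫ x : Fin K → ℝ, (Function.eval j x) ^ 2 ∂(Measure.pi (fun _ : Fin K => nu)) :=
      integral_map (measurable_pi_apply j).aemeasurable (by fun_prop)
    rw [h3] at h4
    exact h4.symm
  rw [h2]
  exact nu_sq

lemma exists_coord {θ : Fin K → ℝ} {δ : ℝ} (hδ : 0 < δ) (h : δ ^ 2 ≤ ∑ j, θ j ^ 2) :
    ∃ j, 1 ≤ |Real.sqrt K / δ * θ j| := by
  by_contra hcon
  push Not at hcon
  have hK : 0 < (K : ℝ) := by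
    rcases Nat.eq_zero_or_pos K with h0 | h0
    · subst h0
      simp at h
      nlinarith
    · exact_mod_cast h0
  have h1 : ∀ j, θ j ^ 2 < δ ^ 2 / K := by
    intro j
    have h2 := hcon j
    rw [abs_mul, abs_of_pos (by positivity), div_mul_eq_mul_div, div_lt_one hδ] at h2
    have h3 : (Real.sqrt K * |θ j|) ^ 2 < δ ^ 2 := by
      apply pow_lt_pow_left₀ h2 (by positivity) (by norm_num)
    rw [mul_pow, Real.sq_sqrt hK.le, sq_abs] at h3
    rw [lt_div_iff₀ hK]
    linarith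
  have h4 : ∑ j, θ j ^ 2 < ∑ _j : Fin K, δ ^ 2 / K := by
    apply Finset.sum_lt_sum_of_nonempty
    · have : 0 < K := by exact_mod_cast hK
      exact ⟨⟨0, this⟩, Finset.mem_univ _⟩
    · intro j _
      exact h1 j
  rw [Finset.sum_const, Finset.card_univ, Fintype.card_fin, nsmul_eq_mul, mul_div_cancel₀ _ hK.ne'] at h4
  linarith

theorem favard {ι : Type*} [Fintype ι] (c : ι → ℂ) (ξ : ι → Fin K → ℝ) {δ η : ℝ} (hδ : 0 < δ)
    (hη : 0 ≤ η) (hξ : ∀ i, c i ≠ 0 → δ ^ 2 ≤ ∑ j, ξ i j ^ 2)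
    (hL : ∀ t : Fin K → ℝ, ‖∑ i, c i - ∑ i, c i * Complex.exp (Complex.I * ((∑ j, ξ i j * t j : ℝ) : ℂ))‖
      ≤ η * Real.sqrt (∑ j, t j ^ 2)) :
    ‖∑ i, c i‖ ≤ η * (Real.pi * K / δ) := by
  rcases Nat.eq_zero_or_pos K with h0 | h0
  · subst h0
    have : ∀ i, c i = 0 := by
      intro i
      by_contra h
      have := hξ i h
      simp at this
      nlinarith
    simp [this]
  have hK : 0 < (K : ℝ) := by exact_mod_cast h0
  set s : ℝ := Real.sqrt K / δ with hs
  have hs0 : 0 < s := by positivity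
  have hp := Real.pi_pos
  -- integrability
  have hint : ∀ i, Integrable (fun x : Fin K → ℝ =>
      c i * Complex.exp (Complex.I * ((∑ j, ξ i j * (s * x j) : ℝ) : ℂ))) (nuK K) := by
    intro i
    have hc : Continuous (fun x : Fin K → ℝ =>
        c i * Complex.exp (Complex.I * ((∑ j, ξ i j * (s * x j) : ℝ) : ℂ))) := by
      refine continuous_const.mul (Complex.continuous_exp.comp (continuous_const.mul
        (Complex.continuous_ofReal.comp ?_)))
      fun_prop
    refine Integrable.of_bound hc.aestronglyMeasurable ‖c i‖ (Eventually.of_forall fun x => ?_)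
    rw [norm_mul, mul_comm Complex.I, Complex.norm_exp_ofReal_mul_I, mul_one]
  have hzero : ∀ i, ∫ x, c i * Complex.exp (Complex.I * ((∑ j, ξ i j * (s * x j) : ℝ) : ℂ)) ∂(nuK K) = 0 := by
    intro i
    by_cases hc : c i = 0
    · simp [hc]
    · have h1 : ∀ x : Fin K → ℝ, (∑ j, ξ i j * (s * x j) : ℝ) = ∑ j, (s * ξ i j) * x j := by
        intro x
        exact Finset.sum_congr rfl fun j _ => by ring
      simp_rw [h1]
      rw [integral_const_mul, nuK_char (fun j => s * ξ i j)]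
      obtain ⟨j, hj⟩ := exists_coord hδ (hξ i hc)
      rw [Finset.prod_eq_zero (Finset.mem_univ j) (by rw [ps_out hj]; rfl), mul_zero]
  have hsum : ∑ i, c i = ∫ x : Fin K → ℝ, (∑ i, c i -
      ∑ i, c i * Complex.exp (Complex.I * ((∑ j, ξ i j * (s * x j) : ℝ) : ℂ))) ∂(nuK K) := by
    rw [integral_sub (integrable_const _) (integrable_finsetSum _ fun i _ => hint i),
      integral_finsetSum _ fun i _ => hint i, Finset.sum_eq_zero (fun i _ => hzero i)]
    simp
  have hsqI : Integrable (fun x : Fin K → ℝ => ∑ j, x j ^ 2) (nuK K) :=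
    integrable_finsetSum _ fun j _ => nuK_sq_int j
  have hsq : ∫ x : Fin K → ℝ, ∑ j, x j ^ 2 ∂(nuK K) ≤ K * Real.pi ^ 2 := by
    rw [integral_finsetSum _ fun j _ => nuK_sq_int j]
    calc ∑ j : Fin K, ∫ x : Fin K → ℝ, x j ^ 2 ∂(nuK K) ≤ ∑ _j : Fin K, Real.pi ^ 2 :=
          Finset.sum_le_sum fun j _ => nuK_sq j
      _ = _ := by simp
  -- pointwise bound
  set a : ℝ := Real.pi * Real.sqrt K with ha
  have ha0 : 0 < a := by positivity
  have ha2 : a ^ 2 = K * Real.pi ^ 2 := by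
    rw [ha, mul_pow, Real.sq_sqrt hK.le]; ring
  have hpt : ∀ x : Fin K → ℝ, ‖∑ i, c i -
      ∑ i, c i * Complex.exp (Complex.I * ((∑ j, ξ i j * (s * x j) : ℝ) : ℂ))‖ ≤
      η * s * ((∑ j, x j ^ 2 + a ^ 2) / (2 * a)) := by
    intro x
    refine (hL (fun j => s * x j)).trans ?_
    have h1 : Real.sqrt (∑ j, (s * x j) ^ 2) = s * Real.sqrt (∑ j, x j ^ 2) := by
      have : ∑ j, (s * x j) ^ 2 = s ^ 2 * ∑ j, x j ^ 2 := by
        rw [Finset.mul_sum]
        exact Finset.sum_congr rfl fun j _ => by ring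
      rw [this, Real.sqrt_mul (by positivity), Real.sqrt_sq hs0.le]
    rw [h1, ← mul_assoc]
    apply mul_le_mul_of_nonneg_left _ (by positivity)
    rw [le_div_iff₀ (by positivity)]
    have h2 : 0 ≤ ∑ j, x j ^ 2 := Finset.sum_nonneg fun j _ => sq_nonneg _
    have h3 := Real.sq_sqrt h2
    nlinarith [sq_nonneg (Real.sqrt (∑ j, x j ^ 2) - a)]
  rw [hsum]
  calc ‖∫ x : Fin K → ℝ, (∑ i, c i -
      ∑ i, c i * Complex.exp (Complex.I * ((∑ j, ξ i j * (s * x j) : ℝ) : ℂ))) ∂(nuK K)‖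
      ≤ ∫ x : Fin K → ℝ, η * s * ((∑ j, x j ^ 2 + a ^ 2) / (2 * a)) ∂(nuK K) := by
        apply norm_integral_le_of_norm_le
        · exact ((hsqI.add (integrable_const _)).div_const _).const_mul _
        · exact Eventually.of_forall hpt
    _ = η * s * ((∫ x : Fin K → ℝ, ∑ j, x j ^ 2 ∂(nuK K) + a ^ 2) / (2 * a)) := by
        rw [integral_const_mul, integral_div, integral_add hsqI (integrable_const _)]
        simp
    _ ≤ η * s * ((K * Real.pi ^ 2 + a ^ 2) / (2 * a)) := by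
        gcongr
    _ = η * (Real.pi * K / δ) := by
        rw [← ha2]
        have h5 : Real.sqrt K * Real.sqrt K = K := Real.mul_self_sqrt hK.le
        have h6 : (a ^ 2 + a ^ 2) / (2 * a) = a := by field_simp; ring
        rw [h6, hs, ha]
        have h7 : Real.pi * K / δ = Real.pi * (Real.sqrt K * Real.sqrt K) / δ := by rw [h5]
        rw [h7]
        ring

end Pool.Agent.T6.H51.SV
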