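import Mathlib

/-!
# A probability measure on the line with characteristic function supported in `[-1, 1]`

The function `ψ (x) = (1 - |x|) cos (π x) + sin (π |x|) / π` (`|x| ≤ 1`) is the characteristic
function of a probability measure with second moment at most `π ^ 2`.
-/

set_option autoImplicit false

namespace Pool.Agent.T6.H51.SV

open MeasureTheory Set Filter Topology FourierTransform

/-- the function on `[0, 1]` -/
noncomputable def ps0 (x : ℝ) : ℝ := (1 - x) * Real.cos (Real.pi * x) + Real.sin (Real.pi * x) / Real.pi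

/-- the characteristic function -/
noncomputable def ps (x : ℝ) : ℝ := if |x| ≤ 1 then ps0 |x| else 0

lemma ps0_cont : Continuous ps0 := by unfold ps0; fun_prop

lemma ps0_one : ps0 1 = 0 := by simp [ps0]

lemma ps_zero : ps 0 = 1 := by simp [ps, ps0]

lemma ps_out {x : ℝ} (h : 1 ≤ |x|) : ps x = 0 := by
  unfold ps
  split_ifs with h1
  · rw [le_antisymm h1 h, ps0_one]
  · rfl

lemma ps_cont : Continuous ps := by
  unfold ps
  refine Continuous.if_le ?_ continuous_const continuous_abs continuous_const ?_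
  · exact ps0_cont.comp continuous_abs
  · intro x hx
    rw [hx, ps0_one]

lemma ps_supp : Function.support ps ⊆ Icc (-1) 1 := by
  intro x hx
  by_contra h
  apply hx
  apply ps_out
  rw [mem_Icc, ← abs_le] at h
  exact (not_le.1 h).le

lemma ps_int : Integrable ps :=
  ps_cont.integrable_of_hasCompactSupport
    (HasCompactSupport.of_support_subset_isCompact isCompact_Icc ps_supp)

/-- primitive used for the computation of the transform -/
lemma prim (c : ℝ) (hc : c ≠ 0) :
    ∫ x in (0:ℝ)..1, ((1 - x) * Real.cos (c * x)) = (1 - Real.cos c) / c ^ 2 := by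
  have h : ∀ x ∈ uIcc (0:ℝ) 1, HasDerivAt
      (fun x => (1 - x) * Real.sin (c * x) / c - Real.cos (c * x) / c ^ 2)
      ((1 - x) * Real.cos (c * x)) x := by
    intro x _
    have h1 : HasDerivAt (fun x : ℝ => c * x) c x := by
      simpa using (hasDerivAt_id x).const_mul c
    have h2 : HasDerivAt (fun x : ℝ => 1 - x) (-1) x := by
      simpa using (hasDerivAt_id x).const_sub 1
    have h3 := ((h2.mul h1.sin).div_const c).sub (h1.cos.div_const (c ^ 2))
    have e : (-1 * Real.sin (c * x) + (1 - x) * (Real.cos (c * x) * c)) / c -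
        -Real.sin (c * x) * c / c ^ 2 = (1 - x) * Real.cos (c * x) := by
      field_simp
      ring
    rw [← e]
    exact h3
  rw [intervalIntegral.integral_eq_sub_of_hasDerivAt h
    (Continuous.intervalIntegrable (by fun_prop) _ _)]
  simp
  field_simp
  ring

lemma prim2 (c : ℝ) (hc : c ≠ 0) :
    ∫ x in (0:ℝ)..1, Real.sin (c * x) = (1 - Real.cos c) / c := by
  have h : ∀ x ∈ uIcc (0:ℝ) 1, HasDerivAt
      (fun x => - Real.cos (c * x) / c)
      (Real.sin (c * x)) x := by
    intro x _
    have h1 : HasDerivAt (fun x : ℝ => c * x) c x := by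
      simpa using (hasDerivAt_id x).const_mul c
    have h3 := (h1.cos.neg).div_const c
    have e : -(-Real.sin (c * x) * c) / c = Real.sin (c * x) := by
      field_simp
    rw [← e]
    exact h3
  rw [intervalIntegral.integral_eq_sub_of_hasDerivAt h
    (Continuous.intervalIntegrable (by fun_prop) _ _)]
  simp
  field_simp
  ring

/-- the transform of `ps` -/
noncomputable def W (T : ℝ) : ℝ := ∫ x, ps x * Real.cos (T * x)

lemma W_eq0 (T : ℝ) : W T = 2 * ∫ x in (0:ℝ)..1, ps0 x * Real.cos (T * x) := by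
  unfold W
  have h1 : ∫ x, ps x * Real.cos (T * x) = ∫ x in (-1:ℝ)..1, ps x * Real.cos (T * x) := by
    rw [intervalIntegral.integral_of_le (by norm_num), ← integral_Icc_eq_integral_Ioc]
    symm
    apply setIntegral_eq_integral_of_forall_compl_eq_zero
    intro x hx
    rw [Function.notMem_support.1 (fun h => hx (ps_supp h)), zero_mul]
  have hc : Continuous (fun x => ps x * Real.cos (T * x)) := ps_cont.mul (by fun_prop)
  rw [h1, ← intervalIntegral.integral_add_adjacent_intervals (b := 0)
    (hc.intervalIntegrable _ _) (hc.intervalIntegrable _ _)]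
  have h2 : ∫ x in (-1:ℝ)..0, ps x * Real.cos (T * x) = ∫ x in (0:ℝ)..1, ps x * Real.cos (T * x) := by
    have h3 := intervalIntegral.integral_comp_neg (a := 0) (b := 1)
      (fun x => ps x * Real.cos (T * x))
    rw [neg_zero] at h3
    rw [← h3]
    apply intervalIntegral.integral_congr
    intro x _
    simp only [ps, abs_neg, mul_neg, Real.cos_neg]
  have h4 : ∫ x in (0:ℝ)..1, ps x * Real.cos (T * x) = ∫ x in (0:ℝ)..1, ps0 x * Real.cos (T * x) := by
    apply intervalIntegral.integral_congr
    intro x hx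
    rw [uIcc_of_le (by norm_num)] at hx
    simp only [ps]
    rw [abs_of_nonneg hx.1, if_pos hx.2]
  rw [h2, h4]
  ring

lemma W_eq (T : ℝ) (h1 : Real.pi + T ≠ 0) (h2 : Real.pi - T ≠ 0) :
    W T = 4 * Real.pi ^ 2 * (1 + Real.cos T) / (Real.pi ^ 2 - T ^ 2) ^ 2 := by
  rw [W_eq0]
  have hp : Real.pi ≠ 0 := Real.pi_ne_zero
  have h3 : ∫ x in (0:ℝ)..1, ps0 x * Real.cos (T * x) =
      ∫ x in (0:ℝ)..1, ((1 / 2) * ((1 - x) * Real.cos ((Real.pi + T) * x)) +
        (1 / 2) * ((1 - x) * Real.cos ((Real.pi - T) * x)) +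
        (1 / (2 * Real.pi)) * Real.sin ((Real.pi + T) * x) +
        (1 / (2 * Real.pi)) * Real.sin ((Real.pi - T) * x)) := by
    apply intervalIntegral.integral_congr
    intro x _
    simp only [ps0]
    have e1 : Real.cos ((Real.pi + T) * x) = Real.cos (Real.pi * x) * Real.cos (T * x) -
        Real.sin (Real.pi * x) * Real.sin (T * x) := by rw [add_mul, Real.cos_add]
    have e2 : Real.cos ((Real.pi - T) * x) = Real.cos (Real.pi * x) * Real.cos (T * x) +
        Real.sin (Real.pi * x) * Real.sin (T * x) := by rw [sub_mul, Real.cos_sub]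
    have e3 : Real.sin ((Real.pi + T) * x) = Real.sin (Real.pi * x) * Real.cos (T * x) +
        Real.cos (Real.pi * x) * Real.sin (T * x) := by rw [add_mul, Real.sin_add]
    have e4 : Real.sin ((Real.pi - T) * x) = Real.sin (Real.pi * x) * Real.cos (T * x) -
        Real.cos (Real.pi * x) * Real.sin (T * x) := by rw [sub_mul, Real.sin_sub]
    rw [e1, e2, e3, e4]
    field_simp
    ring
  rw [h3, intervalIntegral.integral_add, intervalIntegral.integral_add,
    intervalIntegral.integral_add, intervalIntegral.integral_const_mul,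
    intervalIntegral.integral_const_mul, intervalIntegral.integral_const_mul,
    intervalIntegral.integral_const_mul, prim _ h1, prim _ h2, prim2 _ h1, prim2 _ h2]
  · have e5 : Real.cos (Real.pi + T) = - Real.cos T := by
      rw [add_comm, Real.cos_add_pi]
    have e6 : Real.cos (Real.pi - T) = - Real.cos T := Real.cos_pi_sub T
    have h7 : Real.pi ^ 2 - T ^ 2 ≠ 0 := by
      rw [sq_sub_sq]; exact mul_ne_zero h1 h2
    rw [e5, e6]
    field_simp
    ring
  all_goals exact Continuous.intervalIntegrable (by fun_prop) _ _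

lemma W_bound (T : ℝ) : |W T| ≤ ∫ x, |ps x| := by
  unfold W
  calc |∫ x, ps x * Real.cos (T * x)| ≤ ∫ x, |ps x * Real.cos (T * x)| :=
        abs_integral_le_integral_abs
    _ ≤ ∫ x, |ps x| := by
        apply integral_mono_of_nonneg
        · exact Eventually.of_forall fun x => abs_nonneg _
        · exact ps_int.abs
        · refine Eventually.of_forall fun x => ?_
          simp only [abs_mul]
          exact mul_le_of_le_one_right (abs_nonneg _) (Real.abs_cos_le_one _)

lemma integrable_mul_bdd (g : ℝ → ℝ) (hg : Continuous g) : Integrable (fun x => ps x * g x) :=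
  (ps_cont.mul hg).integrable_of_hasCompactSupport
    (HasCompactSupport.of_support_subset_isCompact isCompact_Icc
      ((Function.support_mul_subset_left _ _).trans ps_supp))

lemma four (t : ℝ) : 𝓕 (fun x => (ps x : ℂ)) t = (W (2 * Real.pi * t) : ℂ) := by
  rw [Real.fourier_real_eq_integral_exp_smul]
  have h1 : ∀ x : ℝ, Complex.exp (↑(-2 * Real.pi * x * t) * Complex.I) • (ps x : ℂ) =
      ((ps x * Real.cos (2 * Real.pi * t * x) : ℝ) : ℂ) +
      ((-(ps x * Real.sin (2 * Real.pi * t * x)) : ℝ) : ℂ) * Complex.I := by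
    intro x
    rw [Complex.exp_mul_I, smul_eq_mul, ← Complex.ofReal_cos, ← Complex.ofReal_sin]
    have e : -2 * Real.pi * x * t = -(2 * Real.pi * t * x) := by ring
    rw [e, Real.cos_neg, Real.sin_neg]
    push_cast
    ring
  simp_rw [h1]
  have hc := integrable_mul_bdd (fun x => Real.cos (2 * Real.pi * t * x)) (by fun_prop)
  have hs := integrable_mul_bdd (fun x => Real.sin (2 * Real.pi * t * x)) (by fun_prop)
  rw [integral_add hc.ofReal (hs.neg.ofReal.mul_const _), integral_complex_ofReal,
    integral_mul_const, integral_complex_ofReal]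
  have hodd : ∫ x, -(ps x * Real.sin (2 * Real.pi * t * x)) = 0 := by
    have h2 := integral_neg_eq_self (fun x => -(ps x * Real.sin (2 * Real.pi * t * x))) volume
    have h3 : ∫ x, -(ps (-x) * Real.sin (2 * Real.pi * t * (-x))) =
        - ∫ x, -(ps x * Real.sin (2 * Real.pi * t * x)) := by
      rw [← integral_neg]
      congr 1
      funext x
      simp only [ps, abs_neg, mul_neg, Real.sin_neg]
    rw [h3] at h2
    linarith
  rw [hodd]
  simp [W]

lemma ae_ne : ∀ᵐ t : ℝ, Real.pi + 2 * Real.pi * t ≠ 0 ∧ Real.pi - 2 * Real.pi * t ≠ 0 := by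
  have h : ∀ᵐ t : ℝ, t ≠ -(1 / 2) ∧ t ≠ 1 / 2 := by
    have h1 : ∀ a : ℝ, ∀ᵐ t : ℝ, t ≠ a := fun a => by
      rw [ae_iff]
      simp
    exact (h1 _).and (h1 _)
  filter_upwards [h] with t ht
  have hp := Real.pi_ne_zero
  constructor
  · intro h2
    apply ht.1
    have : Real.pi * (1 + 2 * t) = 0 := by linarith
    rcases mul_eq_zero.1 this with h3 | h3
    · exact absurd h3 hp
    · linarith
  · intro h2
    apply ht.2
    have : Real.pi * (1 - 2 * t) = 0 := by linarith
    rcases mul_eq_zero.1 this with h3 | h3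
    · exact absurd h3 hp
    · linarith

lemma ae_nonneg : ∀ᵐ t : ℝ, 0 ≤ W (2 * Real.pi * t) := by
  filter_upwards [ae_ne] with t ht
  rw [W_eq _ ht.1 ht.2]
  have := Real.neg_one_le_cos (2 * Real.pi * t)
  apply div_nonneg
  · apply mul_nonneg (by positivity); linarith
  · positivity

lemma cont_W : Continuous W := by
  unfold W
  refine continuous_of_dominated (bound := fun x => |ps x|) ?_ ?_ ?_ ?_
  · intro T
    exact (ps_cont.mul (by fun_prop)).aestronglyMeasurable
  · intro T
    refine Eventually.of_forall fun x => ?_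
    rw [Real.norm_eq_abs, abs_mul]
    exact mul_le_of_le_one_right (abs_nonneg _) (Real.abs_cos_le_one _)
  · exact ps_int.abs
  · refine Eventually.of_forall fun x => ?_
    fun_prop

lemma W_le (T : ℝ) (h1 : Real.pi + T ≠ 0) (h2 : Real.pi - T ≠ 0) :
    |W T| ≤ ((∫ x, |ps x|) * (1 + 4 * Real.pi ^ 2) + 64 / 9) * (1 + T ^ 2)⁻¹ := by
  have hp := Real.pi_pos
  have hM : 0 ≤ ∫ x, |ps x| := integral_nonneg fun x => abs_nonneg _
  have h3 : 0 < 1 + T ^ 2 := by positivity
  rw [← div_eq_mul_inv, le_div_iff₀ h3]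
  rcases le_total (T ^ 2) (4 * Real.pi ^ 2) with h | h
  · calc |W T| * (1 + T ^ 2) ≤ (∫ x, |ps x|) * (1 + 4 * Real.pi ^ 2) := by
          apply mul_le_mul (W_bound T) (by linarith) h3.le hM
      _ ≤ _ := by linarith
  · rw [W_eq T h1 h2]
    have hc1 := Real.cos_le_one T
    have hc2 := Real.neg_one_le_cos T
    have h4 : 9 / 16 * (T ^ 2) ^ 2 ≤ (Real.pi ^ 2 - T ^ 2) ^ 2 := by nlinarith
    have hT : 0 < T ^ 2 := lt_of_lt_of_le (by positivity) h
    have h5 : 0 < (Real.pi ^ 2 - T ^ 2) ^ 2 := lt_of_lt_of_le (by positivity) h4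
    rw [abs_of_nonneg (div_nonneg (mul_nonneg (by positivity) (by linarith)) h5.le)]
    have h6 : 4 * Real.pi ^ 2 * (1 + Real.cos T) * (1 + T ^ 2) ≤ 64 / 9 * (Real.pi ^ 2 - T ^ 2) ^ 2 := by
      have h7 : 4 * Real.pi ^ 2 * (1 + Real.cos T) * (1 + T ^ 2) ≤ 4 * Real.pi ^ 2 * 2 * (1 + T ^ 2) := by
        gcongr
        linarith
      have h8 : 1 + T ^ 2 ≤ 2 * T ^ 2 := by
        have : 3 < Real.pi := Real.pi_gt_three
        nlinarith
      have h9 : 4 * Real.pi ^ 2 * 2 * (1 + T ^ 2) ≤ T ^ 2 * 2 * (2 * T ^ 2) := by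
        gcongr
      nlinarith
    rw [div_mul_eq_mul_div, div_le_iff₀ h5]
    have h10 : 0 ≤ (∫ x, |ps x|) * (1 + 4 * Real.pi ^ 2) * (Real.pi ^ 2 - T ^ 2) ^ 2 := by positivity
    linarith

lemma int_W : Integrable (fun t : ℝ => W (2 * Real.pi * t)) := by
  have h1 : Integrable (fun t : ℝ => ((∫ x, |ps x|) * (1 + 4 * Real.pi ^ 2) + 64 / 9) *
      (1 + (2 * Real.pi * t) ^ 2)⁻¹) := by
    apply Integrable.const_mul
    exact (integrable_inv_one_add_sq.comp_mul_left' (by positivity : (2 * Real.pi) ≠ 0))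
  refine h1.mono' ((cont_W.comp (by fun_prop)).aestronglyMeasurable) ?_
  filter_upwards [ae_ne] with t ht
  exact W_le _ ht.1 ht.2

lemma inversion (ξ : ℝ) :
    ∫ t : ℝ, Complex.exp (Complex.I * ((ξ * (2 * Real.pi * t) : ℝ) : ℂ)) * (W (2 * Real.pi * t) : ℂ) =
      (ps ξ : ℂ) := by
  have h1 : Continuous (fun x => (ps x : ℂ)) := by
    exact Complex.continuous_ofReal.comp ps_cont
  have h2 : 𝓕 (fun x => (ps x : ℂ)) = fun t => (W (2 * Real.pi * t) : ℂ) := funext four
  have h3 := h1.fourierInv_fourier_eq ps_int.ofReal (by rw [h2]; exact int_W.ofReal)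
  have h4 := congrFun h3 ξ
  rw [h2, Real.fourierInv_eq'] at h4
  rw [← h4]
  congr 1
  funext t
  rw [smul_eq_mul]
  congr 2
  have : inner ℝ t ξ = t * ξ := by
    simp [mul_comm]
  rw [this]
  push_cast
  ring

end Pool.Agent.T6.H51.SV
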