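import Pool.Agent.T6.H51.SV.Kernel

set_option autoImplicit false

namespace Pool.Agent.T6.H51.SV

open MeasureTheory Set Filter Topology

/-- the measure before scaling -/
noncomputable def dens : Measure ℝ :=
  volume.withDensity (fun t => ENNReal.ofReal (W (2 * Real.pi * t)))

/-- the measure with characteristic function `ps` -/
noncomputable def nu : Measure ℝ := dens.map (fun t => 2 * Real.pi * t)

lemma meas_W : Measurable (fun t : ℝ => ENNReal.ofReal (W (2 * Real.pi * t))) :=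
  (cont_W.comp (by fun_prop)).measurable.ennreal_ofReal

lemma nu_integral {E : Type*} [NormedAddCommGroup E] [NormedSpace ℝ E] (f : ℝ → E)
    (hf : Continuous f) :
    ∫ s, f s ∂nu = ∫ t : ℝ, W (2 * Real.pi * t) • f (2 * Real.pi * t) := by
  unfold nu
  rw [integral_map (by fun_prop) hf.aestronglyMeasurable]
  unfold dens
  rw [integral_withDensity_eq_integral_toReal_smul meas_W
    (Eventually.of_forall fun x => ENNReal.ofReal_lt_top)]
  apply integral_congr_ae
  filter_upwards [ae_nonneg] with t ht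
  rw [ENNReal.toReal_ofReal ht]

lemma W_total : ∫ t : ℝ, W (2 * Real.pi * t) = 1 := by
  have h := inversion 0
  simp only [zero_mul, Complex.ofReal_zero, mul_zero, Complex.exp_zero, one_mul, ps_zero] at h
  rw [integral_complex_ofReal] at h
  exact_mod_cast h

instance : IsProbabilityMeasure nu := by
  constructor
  unfold nu
  rw [Measure.map_apply (by fun_prop) MeasurableSet.univ, preimage_univ]
  unfold dens
  rw [withDensity_apply _ MeasurableSet.univ, Measure.restrict_univ,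
    ← ofReal_integral_eq_lintegral_ofReal int_W ae_nonneg, W_total, ENNReal.ofReal_one]

lemma nu_char (ξ : ℝ) : ∫ s, Complex.exp (Complex.I * ((ξ * s : ℝ) : ℂ)) ∂nu = (ps ξ : ℂ) := by
  rw [nu_integral _ (by fun_prop), ← inversion ξ]
  congr 1
  funext t
  rw [Complex.real_smul, mul_comm]

lemma nu_cos (ξ : ℝ) : ∫ s, Real.cos (ξ * s) ∂nu = ps ξ := by
  have h := congrArg Complex.re (nu_char ξ)
  rw [Complex.ofReal_re] at h
  rw [← h]
  have h2 : Integrable (fun s : ℝ => Complex.exp (Complex.I * ((ξ * s : ℝ) : ℂ))) nu := by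
    refine Integrable.of_bound (by fun_prop) 1 (Eventually.of_forall fun s => ?_)
    rw [mul_comm, Complex.norm_exp_ofReal_mul_I]
  have h3 := integral_re h2
  simp only [RCLike.re_to_complex] at h3
  rw [← h3]
  congr 1
  funext s
  rw [mul_comm Complex.I, Complex.exp_ofReal_mul_I_re]

lemma ps_lower {s : ℝ} (h0 : 0 ≤ s) (h1 : Real.pi * s ≤ 1) :
    1 - ps s ≤ Real.pi ^ 2 / 2 * s ^ 2 := by
  have hp := Real.pi_gt_three
  have hs1 : s ≤ 1 := by nlinarith
  unfold ps
  rw [abs_of_nonneg h0, if_pos hs1]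
  unfold ps0
  have h2 := Real.one_sub_sq_div_two_le_cos (x := Real.pi * s)
  have h3 : Real.pi * s - (Real.pi * s) ^ 3 / 6 ≤ Real.sin (Real.pi * s) := by
    rcases h0.eq_or_lt with h | h
    · rw [← h]; simp
    · exact (Real.sin_gt_sub_cube (by positivity)).le
  have h4 : (1 - s) * (1 - (Real.pi * s) ^ 2 / 2) ≤ (1 - s) * Real.cos (Real.pi * s) :=
    mul_le_mul_of_nonneg_left h2 (by linarith)
  have h5 : s - Real.pi ^ 2 * s ^ 3 / 6 ≤ Real.sin (Real.pi * s) / Real.pi := by
    rw [le_div_iff₀ (by linarith)]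
    calc (s - Real.pi ^ 2 * s ^ 3 / 6) * Real.pi = Real.pi * s - (Real.pi * s) ^ 3 / 6 := by ring
      _ ≤ _ := h3
  have h6 : 0 ≤ Real.pi ^ 2 * s ^ 3 := by positivity
  nlinarith

/-- approximants of the square -/
noncomputable def ap (n : ℕ) (x : ℝ) : ℝ := 2 * ((n : ℝ) + 1) ^ 2 * (1 - Real.cos (1 / ((n : ℝ) + 1) * x))

lemma ap_nonneg (n : ℕ) (x : ℝ) : 0 ≤ ap n x := by
  unfold ap
  have := Real.cos_le_one (1 / ((n : ℝ) + 1) * x)
  apply mul_nonneg (by positivity)
  linarith

lemma ap_tendsto (x : ℝ) : Tendsto (fun n => ap n x) atTop (𝓝 (x ^ 2)) := by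
  have h1 : ∀ᶠ n : ℕ in atTop, |ap n x - x ^ 2| ≤ x ^ 4 * (10 / 96) * (1 / ((n : ℝ) + 1)) := by
    filter_upwards [eventually_ge_atTop ⌈|x|⌉₊] with n hn
    have hn0 : (0 : ℝ) < (n : ℝ) + 1 := by positivity
    have hx : |x| ≤ (n : ℝ) := (Nat.le_ceil _).trans (by exact_mod_cast hn)
    set y : ℝ := 1 / ((n : ℝ) + 1) * x with hy
    have hy1 : |y| ≤ 1 := by
      rw [hy, abs_mul, abs_of_pos (by positivity), one_div, inv_mul_le_iff₀ hn0]
      linarith
    have h2 := Real.cos_bound hy1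
    have e1 : x = ((n : ℝ) + 1) * y := by rw [hy]; field_simp
    have e2 : ap n x - x ^ 2 = - (2 * ((n : ℝ) + 1) ^ 2 * (Real.cos y - (1 - y ^ 2 / 2))) := by
      unfold ap
      rw [← hy]
      rw [e1]
      ring
    rw [e2, abs_neg, abs_mul, abs_of_pos (by positivity)]
    calc 2 * ((n : ℝ) + 1) ^ 2 * |Real.cos y - (1 - y ^ 2 / 2)|
        ≤ 2 * ((n : ℝ) + 1) ^ 2 * (|y| ^ 4 * (5 / 96)) := by gcongr
      _ = x ^ 4 * (10 / 96) * (1 / ((n : ℝ) + 1)) * (1 / ((n : ℝ) + 1)) := by
          have e3 : |y| ^ 4 = (1 / ((n : ℝ) + 1)) ^ 4 * x ^ 4 := by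
            have e4 : |y| ^ 4 = y ^ 4 := by
              rw [show (4 : ℕ) = 2 * 2 by norm_num, pow_mul, sq_abs, ← pow_mul]
            rw [e4, hy, mul_pow]
          rw [e3]
          field_simp
          ring
      _ ≤ x ^ 4 * (10 / 96) * (1 / ((n : ℝ) + 1)) * 1 := by
          have h3 : 1 / ((n : ℝ) + 1) ≤ 1 := by
            rw [div_le_one hn0]; linarith [(Nat.cast_nonneg n : (0:ℝ) ≤ n)]
          have h4 : 0 ≤ x ^ 4 := by positivity
          gcongr
      _ = _ := mul_one _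
  have h2 : Tendsto (fun n : ℕ => x ^ 4 * (10 / 96) * (1 / ((n : ℝ) + 1))) atTop (𝓝 0) := by
    have := tendsto_one_div_add_atTop_nhds_zero_nat (𝕜 := ℝ)
    simpa using this.const_mul (x ^ 4 * (10 / 96))
  have h3 : Tendsto (fun n => ap n x - x ^ 2) atTop (𝓝 0) := by
    rw [tendsto_zero_iff_abs_tendsto_zero]
    exact squeeze_zero' (Eventually.of_forall fun n => abs_nonneg _) h1 h2
  have h4 := h3.add_const (x ^ 2)
  simpa using h4

lemma nu_ap {n : ℕ} (hn : Real.pi ≤ (n : ℝ) + 1) : ∫⁻ x, ENNReal.ofReal (ap n x) ∂nu ≤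
    ENNReal.ofReal (Real.pi ^ 2) := by
  have hc : Continuous (fun x => ap n x) := by unfold ap; fun_prop
  have hb : Integrable (fun x => ap n x) nu := by
    refine Integrable.of_bound (by fun_prop) (2 * ((n : ℝ) + 1) ^ 2 * 2)
      (Eventually.of_forall fun s => ?_)
    rw [Real.norm_eq_abs, abs_of_nonneg (ap_nonneg n s)]
    unfold ap
    have := Real.neg_one_le_cos (1 / ((n : ℝ) + 1) * s)
    gcongr
    linarith
  rw [← ofReal_integral_eq_lintegral_ofReal hb (Eventually.of_forall fun x => ap_nonneg n x)]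
  apply ENNReal.ofReal_le_ofReal
  unfold ap
  rw [integral_const_mul, integral_sub (integrable_const _), nu_cos]
  · simp only [integral_const, probReal_univ, smul_eq_mul, mul_one]
    have hn0 : (0 : ℝ) < (n : ℝ) + 1 := by positivity
    have h1 := ps_lower (s := 1 / ((n : ℝ) + 1)) (by positivity)
      (by rw [mul_one_div, div_le_one hn0]; exact hn)
    calc 2 * ((n : ℝ) + 1) ^ 2 * (1 - ps (1 / ((n : ℝ) + 1)))
        ≤ 2 * ((n : ℝ) + 1) ^ 2 * (Real.pi ^ 2 / 2 * (1 / ((n : ℝ) + 1)) ^ 2) := by gcongr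
      _ = Real.pi ^ 2 := by field_simp
  · refine Integrable.of_bound (by fun_prop) 1 (Eventually.of_forall fun s => ?_)
    rw [Real.norm_eq_abs]
    exact Real.abs_cos_le_one _

lemma nu_sq_lint : ∫⁻ x, ENNReal.ofReal (x ^ 2) ∂nu ≤ ENNReal.ofReal (Real.pi ^ 2) := by
  have h1 : ∀ x : ℝ, liminf (fun n => ENNReal.ofReal (ap n x)) atTop = ENNReal.ofReal (x ^ 2) := by
    intro x
    exact ((ENNReal.continuous_ofReal.tendsto _).comp (ap_tendsto x)).liminf_eq
  have h2 : ∫⁻ x, ENNReal.ofReal (x ^ 2) ∂nu =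
      ∫⁻ x, liminf (fun n => ENNReal.ofReal (ap n x)) atTop ∂nu := by
    congr 1
    funext x
    exact (h1 x).symm
  rw [h2]
  refine (lintegral_liminf_le (fun n => ?_)).trans ?_
  · have hc : Continuous (fun x => ap n x) := by unfold ap; fun_prop
    exact hc.measurable.ennreal_ofReal
  · refine liminf_le_of_frequently_le' ?_
    refine (Eventually.frequently ?_)
    filter_upwards [eventually_ge_atTop 3] with n hn
    apply nu_ap
    have : (3 : ℝ) ≤ n := by exact_mod_cast hn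
    linarith [Real.pi_lt_four]

lemma nu_sq_int : Integrable (fun x : ℝ => x ^ 2) nu := by
  refine ⟨by fun_prop, ?_⟩
  rw [hasFiniteIntegral_iff_ofReal (Eventually.of_forall fun x => sq_nonneg x)]
  exact nu_sq_lint.trans_lt ENNReal.ofReal_lt_top

lemma nu_sq : ∫ x, x ^ 2 ∂nu ≤ Real.pi ^ 2 := by
  rw [integral_eq_lintegral_of_nonneg_ae (Eventually.of_forall fun x => sq_nonneg x) (by fun_prop)]
  exact ENNReal.toReal_le_of_le_ofReal (by positivity) nu_sq_lint

end Pool.Agent.T6.H51.SV
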